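import Pool.Agent.H65.Tri.SSKer
import Pool.Agent.H24.Tri.LW
import Pool.Agent.H24.Tri.DefsLoc

set_option autoImplicit false

open MeasureTheory Set Complex Metric Filter Topology
open scoped Real ENNReal NNReal FourierTransform ComplexConjugate

namespace Pool.Agent.H24.Tri

theorem ss_small (X η : ℝ≥0∞) (hX : X ≠ ∞) (hη : η ≠ 0) (hη' : η ≠ ∞) :
    ∃ δ : ℝ≥0∞, δ ≠ 0 ∧ δ ≠ ∞ ∧ X * δ ≤ η := by
  have h1 : X + 1 ≠ ∞ := ENNReal.add_ne_top.mpr ⟨hX, ENNReal.one_ne_top⟩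
  have h2 : X + 1 ≠ 0 := by simp
  refine ⟨η / (X + 1), ?_, ?_, ?_⟩
  · rw [ne_eq, ENNReal.div_eq_zero_iff]
    tauto
  · exact (ENNReal.div_lt_top hη' h2).ne
  · calc X * (η / (X + 1)) ≤ (X + 1) * (η / (X + 1)) := by
          gcongr
          exact le_self_add
      _ = η := ENNReal.mul_div_cancel h2 h1

/-- the shifted function is again the inverse transform of a nice symbol -/
theorem ss_shift (a : ℂ → ℂ) (v z : ℂ) :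
    𝓕⁻ (fun ξ => a ξ * Complex.exp (((2 * π * (conj ξ * v).re : ℝ) : ℂ) * Complex.I)) z =
      𝓕⁻ a (z + v) := by
  rw [tb_fourierInv, tb_fourierInv]
  congr 1
  funext ξ
  have e : (conj ξ * (z + v)).re = (conj ξ * z).re + (conj ξ * v).re := by
    rw [mul_add, Complex.add_re]
  rw [e, mul_comm (a ξ), ← mul_assoc, ← Complex.exp_add]
  congr 2
  push_cast
  ring

/-- main estimate -/
theorem ss_main (ρ : ℂ) (C : ℝ≥0)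
    (hlw : ∀ f₁ f₂ f₃ : ℂ → ℝ≥0∞, Measurable f₁ → Measurable f₂ → Measurable f₃ →
      ∫⁻ θ in Ioc 0 (2 * π), ∫⁻ z, f₁ z * f₂ (z + cis θ) * f₃ (z + ρ * cis θ) ≤
        C * (∫⁻ z, f₁ z ^ 2) ^ (1 / 2 : ℝ) * (∫⁻ z, f₂ z ^ 2) ^ (1 / 2 : ℝ) *
          (∫⁻ z, f₃ z ^ 2) ^ (1 / 2 : ℝ))
    (R : ℝ) (hR : 0 < R) (g₁ g₂ g₃ : ℂ → ℂ) (c₁ : Continuous g₁) (c₂ : Continuous g₂)
    (c₃ : Continuous g₃) (i₁ : Integrable g₁) (b₁ : ∀ z, ‖g₁ z‖ ≤ 1)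
    (b₂ : ∀ z, ‖g₂ z‖ ≤ 1) (b₃ : ∀ z, ‖g₃ z‖ ≤ 1) (V : ℝ≥0∞)
    (v₁ : ∫⁻ z, ‖g₁ z‖ₑ ^ 2 ≤ V) (v₂ : ∫⁻ z, ‖g₂ z‖ₑ ^ 2 ≤ V) (v₃ : ∫⁻ z, ‖g₃ z‖ₑ ^ 2 ≤ V)
    (δ ε' τ : ℝ≥0∞) (hδ : δ ≠ 0) (hδ' : δ ≠ ∞)
    (hloc : ∀ a, ‖LamLoc ρ psi0 (kR R) (fun z => g₁ (z + a)) (fun z => g₂ (z + a))
      (fun z => g₃ (z + a))‖ₑ ≤ ε')
    (hfar : ∫⁻ w in {w : ℂ | 1 < ‖w‖}, ‖kR R w‖ₑ ≤ τ) :
    ‖(((∫ z, psi0 z : ℝ) : ℂ) * LamK ρ (kR R) g₁ g₂ g₃)‖ₑ ≤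
      ε' * (volume (closedBall (0 : ℂ) (4 + 2 * ‖ρ‖)) * V / δ ^ 2) +
      ((∫⁻ y, ‖𝓕⁻ kapC y‖ₑ) * C * (volume (closedBall (0 : ℂ) (4 + 2 * ‖ρ‖)) * V +
        volume (closedBall (0 : ℂ) (4 + 2 * ‖ρ‖)) * V)) * δ +
      (ENNReal.ofReal (2 * π) * ((∫⁻ z, ‖psi0 z‖ₑ) * (V + V))) * τ := by
  have hcis := ss_cis_continuous
  have hpsic : Continuous psi0 := psi0_smooth.continuous
  have hkc : Continuous (kR R) := ss_kR_continuous R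
  have hpsi : Integrable psi0 := hpsic.integrable_of_hasCompactSupport psi0_compact
  set D : ℝ := 4 + 2 * ‖ρ‖ with hD
  set B : ℝ≥0∞ := volume (closedBall (0 : ℂ) D) with hB
  set κ : ℝ≥0∞ := ∫⁻ y, ‖𝓕⁻ kapC y‖ₑ with hκ
  set N : ℂ → ℂ → ℝ≥0∞ := fun a w => ∫⁻ θ in Ioc 0 (2 * π), ∫⁻ z, ‖(psi0 z : ℂ) * g₁ (z + a) *
    g₂ (z + (cis θ + w) + a) * g₃ (z + ρ * (cis θ + w) + a)‖ₑ with hN
  set L : ℂ → ℂ := fun a => ∫ w, kR R w * ∫ θ in Ioc 0 (2 * π), ∫ z, (psi0 z : ℂ) * g₁ (z + a) *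
      g₂ (z + (cis θ + w) + a) * g₃ (z + ρ * (cis θ + w) + a) with hL
  have hfub : ∫ a, L a = ((∫ z, psi0 z : ℝ) : ℂ) * LamK ρ (kR R) g₁ g₂ g₃ :=
    ss_fubini ρ psi0 hpsic hpsi (kR R) hkc (ss_kR_integrable R hR) g₁ g₂ g₃ c₁ c₂ c₃ i₁ b₁ b₂ b₃
  have hLloc : ∀ a, ‖L a‖ₑ ≤ ε' := hloc
  have hLN : ∀ a, ‖L a‖ₑ ≤ ∫⁻ w, ‖kR R w‖ₑ * N a w := by
    intro a
    refine (enorm_integral_le_lintegral_enorm _).trans ?_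
    apply lintegral_mono
    intro w
    simp only [enorm_mul]
    gcongr
    refine (enorm_integral_le_lintegral_enorm _).trans ?_
    rw [hN]
    apply lintegral_mono
    intro θ
    refine (enorm_integral_le_lintegral_enorm _).trans ?_
    simp only [enorm_mul]
    exact le_rfl
  have hSm : MeasurableSet {w : ℂ | 1 < ‖w‖} := measurableSet_lt (by fun_prop) (by fun_prop)
  set T : ℂ → ℝ≥0∞ := fun a => ∫⁻ w in {w : ℂ | 1 < ‖w‖}, ‖kR R w‖ₑ * N a w with hT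
  set Y : (ℂ → ℂ) → ℂ → ℝ≥0∞ := fun g a => ssY g D a with hY
  have hLY : ∀ a, ‖L a‖ₑ ≤ κ * (C * Y g₁ a * Y g₂ a * Y g₃ a) + T a := by
    intro a
    refine (hLN a).trans ?_
    rw [← lintegral_add_compl _ hSm, add_comm]
    gcongr
    calc ∫⁻ w in {w : ℂ | 1 < ‖w‖}ᶜ, ‖kR R w‖ₑ * N a w
        ≤ ∫⁻ w in {w : ℂ | 1 < ‖w‖}ᶜ, ‖kR R w‖ₑ * (C * Y g₁ a * Y g₂ a * Y g₃ a) := by
          apply setLIntegral_mono' hSm.compl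
          intro w hw
          gcongr
          have hw' : ‖w‖ ≤ 1 := by
            rw [mem_compl_iff, mem_ofPred_eq, not_lt] at hw
            exact hw
          exact ss_local ρ C hlw psi0 (fun z => by
            rw [abs_of_nonneg (psi0_nonneg z)]
            exact psi0_le_one z) psi0_zero g₁ g₂ g₃ c₁ c₂ c₃ a w hw' D hD
      _ ≤ ∫⁻ w, ‖kR R w‖ₑ * (C * Y g₁ a * Y g₂ a * Y g₃ a) := setLIntegral_le_lintegral _ _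
      _ = _ := by
          rw [lintegral_mul_const _ (by fun_prop), ss_kR_lintegral R hR]
  have hYm : ∀ g : ℂ → ℂ, Continuous g → Measurable (Y g) := fun g hg => ssY_measurable g hg D
  have hYi : ∀ g : ℂ → ℂ, Continuous g → ∫⁻ z, ‖g z‖ₑ ^ 2 ≤ V → ∫⁻ a, Y g a ^ 2 ≤ B * V := by
    intro g hg hv
    rw [hY]
    simp only
    rw [ssY_lintegral g hg D]
    gcongr
  have hbadm : MeasurableSet {a | δ ≤ Y g₁ a} := measurableSet_le measurable_const (hYm g₁ c₁)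
  have hpt : ∀ a, ‖L a‖ₑ ≤ {a | δ ≤ Y g₁ a}.indicator (fun _ => ε') a +
      (κ * C * (Y g₂ a ^ 2 + Y g₃ a ^ 2)) * δ + T a := by
    intro a
    by_cases ha : δ ≤ Y g₁ a
    · rw [indicator_of_mem (by exact ha)]
      exact (hLloc a).trans ((le_self_add).trans le_self_add)
    · rw [indicator_of_notMem (by exact ha), zero_add]
      refine (hLY a).trans ?_
      gcongr ?_ + _
      push Not at ha
      calc κ * (C * Y g₁ a * Y g₂ a * Y g₃ a)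
          ≤ κ * (C * δ * Y g₂ a * Y g₃ a) := by gcongr
        _ = κ * C * (Y g₂ a * Y g₃ a) * δ := by ring
        _ ≤ _ := by
          gcongr
          exact ss_mul_le _ _
  have hNm : Measurable (Function.uncurry fun a w => N a w) := by
    have h1 : Measurable (fun q : ((ℂ × ℂ) × ℝ) × ℂ => ‖(psi0 q.2 : ℂ) * g₁ (q.2 + q.1.1.1) *
        g₂ (q.2 + (cis q.1.2 + q.1.1.2) + q.1.1.1) *
        g₃ (q.2 + ρ * (cis q.1.2 + q.1.1.2) + q.1.1.1)‖ₑ) := by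
      apply Continuous.measurable
      fun_prop
    have h2 := h1.lintegral_prod_right' (ν := (volume : Measure ℂ))
    have h3 := h2.lintegral_prod_right' (ν := (volume.restrict (Ioc 0 (2 * π)) : Measure ℝ))
    exact h3
  have hTint : ∫⁻ a, T a ≤ (ENNReal.ofReal (2 * π) * ((∫⁻ z, ‖psi0 z‖ₑ) * (V + V))) * τ := by
    rw [hT]
    simp only
    rw [lintegral_lintegral_swap]
    · calc ∫⁻ w in {w : ℂ | 1 < ‖w‖}, ∫⁻ a, ‖kR R w‖ₑ * N a w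
          ≤ ∫⁻ w in {w : ℂ | 1 < ‖w‖}, ‖kR R w‖ₑ *
            (ENNReal.ofReal (2 * π) * ((∫⁻ z, ‖psi0 z‖ₑ) * (V + V))) := by
            apply lintegral_mono
            intro w
            simp only
            rw [lintegral_const_mul' _ _ enorm_ne_top]
            gcongr
            refine (ss_far ρ psi0 hpsic g₁ g₂ g₃ c₁ c₂ c₃ b₃ w).trans ?_
            gcongr
        _ = (∫⁻ w in {w : ℂ | 1 < ‖w‖}, ‖kR R w‖ₑ) *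
            (ENNReal.ofReal (2 * π) * ((∫⁻ z, ‖psi0 z‖ₑ) * (V + V))) := by
            rw [lintegral_mul_const _ (by fun_prop)]
        _ ≤ τ * (ENNReal.ofReal (2 * π) * ((∫⁻ z, ‖psi0 z‖ₑ) * (V + V))) := by gcongr
        _ = _ := mul_comm _ _
    · apply Measurable.aemeasurable
      have h4 : Measurable (fun p : ℂ × ℂ => ‖kR R p.2‖ₑ) := Continuous.measurable (by fun_prop)
      exact h4.mul hNm
  have hmk : volume {a | δ ≤ Y g₁ a} ≤ B * V / δ ^ 2 := by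
    have h1 := mul_meas_ge_le_lintegral (μ := (volume : Measure ℂ)) ((hYm g₁ c₁).pow_const 2)
      (δ ^ 2)
    have h2 : {a | δ ≤ Y g₁ a} ⊆ {x | δ ^ 2 ≤ Y g₁ x ^ 2} := by
      intro a ha
      have ha' : δ ≤ Y g₁ a := ha
      show δ ^ 2 ≤ Y g₁ a ^ 2
      gcongr
    rw [ENNReal.le_div_iff_mul_le (Or.inl (by positivity)) (Or.inl (ENNReal.pow_ne_top hδ'))]
    calc volume {a | δ ≤ Y g₁ a} * δ ^ 2
        ≤ volume {x | δ ^ 2 ≤ Y g₁ x ^ 2} * δ ^ 2 := by gcongr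
      _ = δ ^ 2 * volume {x | δ ^ 2 ≤ Y g₁ x ^ 2} := mul_comm _ _
      _ ≤ ∫⁻ a, Y g₁ a ^ 2 := h1
      _ ≤ B * V := hYi g₁ c₁ v₁
  calc ‖(((∫ z, psi0 z : ℝ) : ℂ) * LamK ρ (kR R) g₁ g₂ g₃)‖ₑ = ‖∫ a, L a‖ₑ := by rw [hfub]
    _ ≤ ∫⁻ a, ‖L a‖ₑ := enorm_integral_le_lintegral_enorm _
    _ ≤ ∫⁻ a, ({a | δ ≤ Y g₁ a}.indicator (fun _ => ε') a +
      (κ * C * (Y g₂ a ^ 2 + Y g₃ a ^ 2)) * δ + T a) := lintegral_mono hpt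
    _ = (∫⁻ a, {a | δ ≤ Y g₁ a}.indicator (fun _ => ε') a) +
        (∫⁻ a, (κ * C * (Y g₂ a ^ 2 + Y g₃ a ^ 2)) * δ) + (∫⁻ a, T a) := by
        have m1 : Measurable fun a => {a | δ ≤ Y g₁ a}.indicator (fun _ => ε') a :=
          Measurable.indicator measurable_const hbadm
        have m2 : Measurable fun a => (κ * C * (Y g₂ a ^ 2 + Y g₃ a ^ 2)) * δ :=
          ((((hYm g₂ c₂).pow_const 2).add ((hYm g₃ c₃).pow_const 2)).const_mul _).mul_const _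
        rw [← lintegral_add_left m1]
        exact lintegral_add_left (m1.add m2) T
    _ ≤ _ := by
        gcongr ?_ + ?_ + ?_
        · rw [lintegral_indicator hbadm, setLIntegral_const]
          gcongr
        · have m3 : Measurable fun a => Y g₂ a ^ 2 + Y g₃ a ^ 2 :=
            ((hYm g₂ c₂).pow_const 2).add ((hYm g₃ c₃).pow_const 2)
          rw [lintegral_mul_const' _ _ hδ', lintegral_const_mul _ m3,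
            lintegral_add_left ((hYm g₂ c₂).pow_const 2)]
          gcongr
          · exact hYi g₂ c₂ v₂
          · exact hYi g₃ c₃ v₃

theorem ss_sq_lintegral (a : ℂ → ℂ) (ha : Nice a) (V : ℝ) (h : (∫ ξ, ‖a ξ‖ ^ 2) ≤ V) :
    ∫⁻ z, ‖𝓕⁻ a z‖ₑ ^ 2 ≤ ENNReal.ofReal V := by
  have h1 : ∫⁻ z, ‖𝓕⁻ a z‖ₑ ^ 2 = ENNReal.ofReal (∫ z, ‖𝓕⁻ a z‖ ^ 2) := by
    rw [ofReal_integral_eq_lintegral_ofReal]
    · congr 1
      funext z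
      rw [← ofReal_norm, ENNReal.ofReal_pow (norm_nonneg _)]
    · exact (nice_memLp a ha).2.integrable_norm_pow (p := 2) (by norm_num)
    · filter_upwards with z
      positivity
  rw [h1, plancherel_sq a ha]
  exact ENNReal.ofReal_le_ofReal h

/-- SSloc implies SS -/
theorem ss_of_ssloc (ρ : ℂ) (hi : ρ.im ≠ 0)
    (hloc : ∀ C₀ ε : ℝ, 0 < C₀ → 0 < ε → ∃ R₀ : ℝ, 1 ≤ R₀ ∧ ∀ R : ℝ, R₀ ≤ R → ∀ a₁ a₂ a₃ : ℂ → ℂ,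
      Nice a₁ → Nice a₂ → Nice a₃ →
      (∀ ξ, C₀ * R < ‖ξ‖ → a₁ ξ = 0) → (∀ ξ, C₀ * R < ‖ξ‖ → a₂ ξ = 0) →
      (∀ ξ, C₀ * R < ‖ξ‖ → a₃ ξ = 0) →
      (∀ z, ‖𝓕⁻ a₁ z‖ ≤ 1) → (∀ z, ‖𝓕⁻ a₂ z‖ ≤ 1) → (∀ z, ‖𝓕⁻ a₃ z‖ ≤ 1) →
      ‖LamLoc ρ psi0 (kR R) (𝓕⁻ a₁) (𝓕⁻ a₂) (𝓕⁻ a₃)‖ ≤ ε) :
    ∀ C₀ V ε : ℝ, 0 < C₀ → 0 < V → 0 < ε → ∃ R₀ : ℝ, 1 ≤ R₀ ∧ ∀ R : ℝ, R₀ ≤ R →
      ∀ a₁ a₂ a₃ : ℂ → ℂ, Nice a₁ → Nice a₂ → Nice a₃ →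
      (∀ ξ, C₀ * R < ‖ξ‖ → a₁ ξ = 0) → (∀ ξ, C₀ * R < ‖ξ‖ → a₂ ξ = 0) →
      (∀ ξ, C₀ * R < ‖ξ‖ → a₃ ξ = 0) →
      (∀ z, ‖𝓕⁻ a₁ z‖ ≤ 1) → (∀ z, ‖𝓕⁻ a₂ z‖ ≤ 1) → (∀ z, ‖𝓕⁻ a₃ z‖ ≤ 1) →
      (∫ ξ, ‖a₁ ξ‖ ^ 2) ≤ V → (∫ ξ, ‖a₂ ξ‖ ^ 2) ≤ V → (∫ ξ, ‖a₃ ξ‖ ^ 2) ≤ V →
      ‖LamK ρ (kR R) (𝓕⁻ a₁) (𝓕⁻ a₂) (𝓕⁻ a₃)‖ ≤ ε := by
  intro C₀ V ε hC₀ hV hε
  obtain ⟨C, hlw⟩ := lw ρ hi
  have hpsic : Continuous psi0 := psi0_smooth.continuous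
  have hpsi : Integrable psi0 := hpsic.integrable_of_hasCompactSupport psi0_compact
  have hq : 0 < ∫ z, psi0 z := by
    rw [integral_pos_iff_support_of_nonneg psi0_nonneg hpsi]
    exact (hpsic.isOpen_support).measure_pos volume ⟨0, by
      rw [Function.mem_support, psi0_at_zero]
      exact one_ne_zero⟩
  set q : ℝ := ∫ z, psi0 z with hqd
  set D : ℝ := 4 + 2 * ‖ρ‖ with hD
  set B : ℝ≥0∞ := volume (closedBall (0 : ℂ) D) with hB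
  have hBt : B ≠ ∞ := measure_closedBall_lt_top.ne
  set κ : ℝ≥0∞ := ∫⁻ y, ‖𝓕⁻ kapC y‖ₑ with hκ
  have hκt : κ ≠ ∞ := (nice_integrable kapC nice_kap).2.2.ne
  have hΦt : (∫⁻ z, ‖psi0 z‖ₑ) ≠ ∞ := hpsi.2.ne
  set η : ℝ≥0∞ := ENNReal.ofReal (q * ε / 3) with hη
  have hη0 : η ≠ 0 := by
    rw [hη, ne_eq, ENNReal.ofReal_eq_zero, not_le]
    positivity
  have hηt : η ≠ ∞ := ENNReal.ofReal_ne_top
  set V' : ℝ≥0∞ := ENNReal.ofReal V with hV'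
  have hVt : V' ≠ ∞ := ENNReal.ofReal_ne_top
  obtain ⟨δ, hδ0, hδt, hδ⟩ := ss_small (κ * C * (B * V' + B * V')) η (by finiteness) hη0 hηt
  obtain ⟨ε', hε0, hεt, hε'⟩ := ss_small (B * V' / δ ^ 2) η
    (ENNReal.div_ne_top (by finiteness) (by positivity)) hη0 hηt
  obtain ⟨τ, hτ0, hτt, hτ⟩ := ss_small
    (ENNReal.ofReal (2 * π) * ((∫⁻ z, ‖psi0 z‖ₑ) * (V' + V'))) η (by finiteness) hη0 hηt
  obtain ⟨R₁, hR₁, hl⟩ := hloc C₀ ε'.toReal hC₀ (ENNReal.toReal_pos hε0 hεt)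
  obtain ⟨R₂, hR₂⟩ := ss_kR_far τ hτ0
  refine ⟨max R₁ R₂, hR₁.trans (le_max_left _ _), ?_⟩
  intro R hR a₁ a₂ a₃ n₁ n₂ n₃ s₁ s₂ s₃ b₁ b₂ b₃ v₁ v₂ v₃
  have hR0 : 0 < R := lt_of_lt_of_le one_pos (hR₁.trans ((le_max_left _ _).trans hR))
  have hmain := ss_main ρ C hlw R hR0 (𝓕⁻ a₁) (𝓕⁻ a₂) (𝓕⁻ a₃) (nice_continuous a₁ n₁)
    (nice_continuous a₂ n₂) (nice_continuous a₃ n₃) (nice_integrable a₁ n₁).2 b₁ b₂ b₃ V'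
    (ss_sq_lintegral a₁ n₁ V v₁) (ss_sq_lintegral a₂ n₂ V v₂) (ss_sq_lintegral a₃ n₃ V v₃)
    δ ε' τ hδ0 hδt ?_ (hR₂ R ((le_max_right _ _).trans hR) hR0)
  · have htot : ‖((q : ℝ) : ℂ) * LamK ρ (kR R) (𝓕⁻ a₁) (𝓕⁻ a₂) (𝓕⁻ a₃)‖ₑ ≤
        ENNReal.ofReal (q * ε) := by
      calc ‖((q : ℝ) : ℂ) * LamK ρ (kR R) (𝓕⁻ a₁) (𝓕⁻ a₂) (𝓕⁻ a₃)‖ₑ
          ≤ ε' * (B * V' / δ ^ 2) + (κ * C * (B * V' + B * V')) * δ +
            (ENNReal.ofReal (2 * π) * ((∫⁻ z, ‖psi0 z‖ₑ) * (V' + V'))) * τ := hmain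
        _ ≤ η + η + η := by
            gcongr
            rw [mul_comm]
            exact hε'
        _ = ENNReal.ofReal (q * ε) := by
            have h3 : 0 ≤ q * ε / 3 := by positivity
            rw [hη, ← ENNReal.ofReal_add h3 h3, ← ENNReal.ofReal_add (by positivity) h3]
            congr 1
            ring
    have h2 : ‖((q : ℝ) : ℂ) * LamK ρ (kR R) (𝓕⁻ a₁) (𝓕⁻ a₂) (𝓕⁻ a₃)‖ ≤ q * ε := by
      rw [← ofReal_norm] at htot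
      exact (ENNReal.ofReal_le_ofReal_iff (by positivity)).mp htot
    rw [norm_mul, Complex.norm_real, Real.norm_of_nonneg hq.le] at h2
    exact le_of_mul_le_mul_left h2 hq
  · intro a
    have e : ∀ b : ℂ → ℂ, (fun z => 𝓕⁻ b (z + a)) =
        𝓕⁻ (fun ξ => b ξ * Complex.exp (((2 * π * (conj ξ * a).re : ℝ) : ℂ) * Complex.I)) := by
      intro b
      funext z
      rw [ss_shift]
    have hb : ∀ b : ℂ → ℂ, (∀ z, ‖𝓕⁻ b z‖ ≤ 1) → ∀ z,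
        ‖𝓕⁻ (fun ξ => b ξ * Complex.exp (((2 * π * (conj ξ * a).re : ℝ) : ℂ) * Complex.I)) z‖ ≤ 1 := by
      intro b hb z
      rw [ss_shift]
      exact hb _
    have hs : ∀ b : ℂ → ℂ, (∀ ξ, C₀ * R < ‖ξ‖ → b ξ = 0) → ∀ ξ, C₀ * R < ‖ξ‖ →
        b ξ * Complex.exp (((2 * π * (conj ξ * a).re : ℝ) : ℂ) * Complex.I) = 0 := by
      intro b hb ξ hξ
      rw [hb ξ hξ, zero_mul]
    rw [e, e, e, ← ofReal_norm, ← ENNReal.ofReal_toReal hεt]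
    apply ENNReal.ofReal_le_ofReal
    exact hl R ((le_max_left _ _).trans hR) _ _ _ (tb_nice_mod a₁ n₁ a) (tb_nice_mod a₂ n₂ a)
      (tb_nice_mod a₃ n₃ a) (hs a₁ s₁) (hs a₂ s₂) (hs a₃ s₃) (hb a₁ b₁) (hb a₂ b₂) (hb a₃ b₃)

end Pool.Agent.H24.Tri
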