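import Pool.Agent.H65.Tri.SSFubini

set_option autoImplicit false

open MeasureTheory Set Complex Metric Filter Topology
open scoped Real ENNReal NNReal FourierTransform ComplexConjugate

namespace Pool.Agent.H24.Tri

/-- local `L²` norm -/
noncomputable def ssY (g : ℂ → ℂ) (D : ℝ) (a : ℂ) : ℝ≥0∞ :=
  (∫⁻ x in closedBall a D, ‖g x‖ₑ ^ 2) ^ (1 / 2 : ℝ)

theorem ssY_sq (g : ℂ → ℂ) (D : ℝ) (a : ℂ) :
    ssY g D a ^ 2 = ∫⁻ x in closedBall a D, ‖g x‖ₑ ^ 2 := by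
  unfold ssY
  rw [← ENNReal.rpow_natCast, ← ENNReal.rpow_mul]
  norm_num

theorem ssY_measurable (g : ℂ → ℂ) (hg : Continuous g) (D : ℝ) : Measurable (ssY g D) := by
  unfold ssY
  apply Measurable.pow_const
  have h : ∀ a, ∫⁻ x in closedBall a D, ‖g x‖ₑ ^ 2 =
      ∫⁻ x, ({p : ℂ × ℂ | dist p.2 p.1 ≤ D}.indicator fun p => ‖g p.2‖ₑ ^ 2) (a, x) := by
    intro a
    rw [← lintegral_indicator measurableSet_closedBall]
    rfl
  simp only [h]
  apply Measurable.lintegral_prod_right'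
  apply Measurable.indicator
  · exact Continuous.measurable (by fun_prop)
  · exact measurableSet_le (by fun_prop) (by fun_prop)

theorem ssY_lintegral (g : ℂ → ℂ) (hg : Continuous g) (D : ℝ) :
    ∫⁻ a, ssY g D a ^ 2 = volume (closedBall (0 : ℂ) D) * ∫⁻ x, ‖g x‖ₑ ^ 2 := by
  have h : ∀ a, ssY g D a ^ 2 =
      ∫⁻ x, ({p : ℂ × ℂ | dist p.2 p.1 ≤ D}.indicator fun p => ‖g p.2‖ₑ ^ 2) (a, x) := by
    intro a
    rw [ssY_sq, ← lintegral_indicator measurableSet_closedBall]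
    rfl
  simp only [h]
  rw [lintegral_lintegral_swap]
  · rw [← lintegral_const_mul _ (by fun_prop)]
    congr 1
    funext x
    have h2 : ∀ a, ({p : ℂ × ℂ | dist p.2 p.1 ≤ D}.indicator fun p => ‖g p.2‖ₑ ^ 2) (a, x) =
        (closedBall x D).indicator (fun _ => ‖g x‖ₑ ^ 2) a := by
      intro a
      simp only [indicator, mem_ofPred_eq, mem_closedBall, dist_comm a x]
    simp only [h2]
    rw [lintegral_indicator measurableSet_closedBall, setLIntegral_const, mul_comm]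
    congr 1
    simp
  · apply Measurable.aemeasurable
    apply Measurable.indicator
    · exact Continuous.measurable (by fun_prop)
    · exact measurableSet_le (by fun_prop) (by fun_prop)

/-- localised Loomis-Whitney bound -/
theorem ss_local (ρ : ℂ) (C : ℝ≥0)
    (hlw : ∀ f₁ f₂ f₃ : ℂ → ℝ≥0∞, Measurable f₁ → Measurable f₂ → Measurable f₃ →
      ∫⁻ θ in Ioc 0 (2 * π), ∫⁻ z, f₁ z * f₂ (z + cis θ) * f₃ (z + ρ * cis θ) ≤
        C * (∫⁻ z, f₁ z ^ 2) ^ (1 / 2 : ℝ) * (∫⁻ z, f₂ z ^ 2) ^ (1 / 2 : ℝ) *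
          (∫⁻ z, f₃ z ^ 2) ^ (1 / 2 : ℝ))
    (φ : ℂ → ℝ) (hφ1 : ∀ z, |φ z| ≤ 1) (hφ0 : ∀ z, 1 ≤ ‖z‖ → φ z = 0)
    (g₁ g₂ g₃ : ℂ → ℂ) (c₁ : Continuous g₁) (c₂ : Continuous g₂) (c₃ : Continuous g₃)
    (a w : ℂ) (hw : ‖w‖ ≤ 1) (D : ℝ) (hD : D = 4 + 2 * ‖ρ‖) :
    ∫⁻ θ in Ioc 0 (2 * π), ∫⁻ z, ‖(φ z : ℂ) * g₁ (z + a) * g₂ (z + (cis θ + w) + a) *
      g₃ (z + ρ * (cis θ + w) + a)‖ₑ ≤ C * ssY g₁ D a * ssY g₂ D a * ssY g₃ D a := by
  set F : (ℂ → ℂ) → ℂ → ℝ≥0∞ := fun g => (closedBall a D).indicator (fun x => ‖g x‖ₑ) with hF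
  have hFm : ∀ g : ℂ → ℂ, Continuous g → Measurable (F g) := by
    intro g hg
    exact Measurable.indicator (by fun_prop) measurableSet_closedBall
  have hFY : ∀ (g : ℂ → ℂ) (c : ℂ), (∫⁻ z, F g (z + c) ^ 2) ^ (1 / 2 : ℝ) = ssY g D a := by
    intro g c
    unfold ssY
    rw [lintegral_add_right_eq_self (fun z => F g z ^ 2) c, ← lintegral_indicator
      measurableSet_closedBall]
    congr 2
    funext x
    simp only [hF, indicator]
    split_ifs <;> simp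
  have key := hlw (fun z => F g₁ (z + a)) (fun z => F g₂ (z + (w + a)))
    (fun z => F g₃ (z + (ρ * w + a))) ((hFm g₁ c₁).comp (by fun_prop))
    ((hFm g₂ c₂).comp (by fun_prop)) ((hFm g₃ c₃).comp (by fun_prop))
  rw [hFY, hFY, hFY] at key
  refine le_trans ?_ key
  apply lintegral_mono
  intro θ
  apply lintegral_mono
  intro z
  simp only
  by_cases hz : 1 ≤ ‖z‖
  · simp [hφ0 z hz]
  · push Not at hz
    have hc := ss_cis_norm θ
    have m1 : z + a ∈ closedBall a D := by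
      rw [mem_closedBall, dist_eq_norm, add_sub_cancel_right, hD]
      have := norm_nonneg ρ
      linarith
    have m2 : z + cis θ + (w + a) ∈ closedBall a D := by
      rw [mem_closedBall, dist_eq_norm, hD]
      have e : z + cis θ + (w + a) - a = z + cis θ + w := by ring
      rw [e]
      have h1 := norm_add_le (z + cis θ) w
      have h2 := norm_add_le z (cis θ)
      have := norm_nonneg ρ
      linarith
    have m3 : z + ρ * cis θ + (ρ * w + a) ∈ closedBall a D := by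
      rw [mem_closedBall, dist_eq_norm, hD]
      have e : z + ρ * cis θ + (ρ * w + a) - a = z + ρ * cis θ + ρ * w := by ring
      rw [e]
      have h1 := norm_add_le (z + ρ * cis θ) (ρ * w)
      have h2 := norm_add_le z (ρ * cis θ)
      have h3 : ‖ρ * w‖ ≤ ‖ρ‖ := by
        rw [norm_mul]
        exact mul_le_of_le_one_right (norm_nonneg _) hw
      have h4 : ‖ρ * cis θ‖ = ‖ρ‖ := by rw [norm_mul, hc, mul_one]
      linarith
    have e1 : F g₁ (z + a) = ‖g₁ (z + a)‖ₑ := indicator_of_mem m1 _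
    have e2 : F g₂ (z + cis θ + (w + a)) = ‖g₂ (z + (cis θ + w) + a)‖ₑ := by
      rw [hF]
      simp only
      rw [indicator_of_mem m2]
      congr 2
      ring
    have e3 : F g₃ (z + ρ * cis θ + (ρ * w + a)) = ‖g₃ (z + ρ * (cis θ + w) + a)‖ₑ := by
      rw [hF]
      simp only
      rw [indicator_of_mem m3]
      congr 2
      ring
    rw [e1, e2, e3]
    simp only [enorm_mul]
    have hφe : ‖(φ z : ℂ)‖ₑ ≤ 1 := by
      rw [← ofReal_norm, Complex.norm_real, Real.norm_eq_abs, ← ENNReal.ofReal_one]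
      exact ENNReal.ofReal_le_ofReal (hφ1 z)
    calc ‖(φ z : ℂ)‖ₑ * ‖g₁ (z + a)‖ₑ * ‖g₂ (z + (cis θ + w) + a)‖ₑ *
          ‖g₃ (z + ρ * (cis θ + w) + a)‖ₑ
        ≤ 1 * ‖g₁ (z + a)‖ₑ * ‖g₂ (z + (cis θ + w) + a)‖ₑ *
          ‖g₃ (z + ρ * (cis θ + w) + a)‖ₑ := by gcongr
      _ = _ := by rw [one_mul]

theorem ss_mul_le (x y : ℝ≥0∞) : x * y ≤ x ^ 2 + y ^ 2 := by
  rcases le_total x y with h | h
  · calc x * y ≤ y * y := by gcongr
      _ = y ^ 2 := by ring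
      _ ≤ x ^ 2 + y ^ 2 := le_add_self
  · calc x * y ≤ x * x := by gcongr
      _ = x ^ 2 := by ring
      _ ≤ x ^ 2 + y ^ 2 := le_self_add

/-- bound for the far part, integrated over all shifts -/
theorem ss_far (ρ : ℂ) (φ : ℂ → ℝ) (hφ : Continuous φ)
    (g₁ g₂ g₃ : ℂ → ℂ) (c₁ : Continuous g₁) (c₂ : Continuous g₂) (c₃ : Continuous g₃)
    (b₃ : ∀ z, ‖g₃ z‖ ≤ 1) (w : ℂ) :
    ∫⁻ a, ∫⁻ θ in Ioc 0 (2 * π), ∫⁻ z, ‖(φ z : ℂ) * g₁ (z + a) * g₂ (z + (cis θ + w) + a) *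
      g₃ (z + ρ * (cis θ + w) + a)‖ₑ ≤
      ENNReal.ofReal (2 * π) * ((∫⁻ z, ‖φ z‖ₑ) * ((∫⁻ z, ‖g₁ z‖ₑ ^ 2) + ∫⁻ z, ‖g₂ z‖ₑ ^ 2)) := by
  have hcis := ss_cis_continuous
  have hpt : ∀ θ z : _, ∫⁻ a, ‖(φ z : ℂ) * g₁ (z + a) * g₂ (z + (cis θ + w) + a) *
      g₃ (z + ρ * (cis θ + w) + a)‖ₑ ≤
      ‖φ z‖ₑ * ((∫⁻ z, ‖g₁ z‖ₑ ^ 2) + ∫⁻ z, ‖g₂ z‖ₑ ^ 2) := by
    intro θ z
    have hφe : ‖(φ z : ℂ)‖ₑ = ‖φ z‖ₑ := by
      rw [← ofReal_norm, Complex.norm_real, ofReal_norm]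
    calc ∫⁻ a, ‖(φ z : ℂ) * g₁ (z + a) * g₂ (z + (cis θ + w) + a) *
          g₃ (z + ρ * (cis θ + w) + a)‖ₑ
        ≤ ∫⁻ a, ‖φ z‖ₑ * (‖g₁ (z + a)‖ₑ ^ 2 + ‖g₂ (z + (cis θ + w) + a)‖ₑ ^ 2) := by
          apply lintegral_mono
          intro a
          simp only [enorm_mul, hφe]
          have h3 : ‖g₃ (z + ρ * (cis θ + w) + a)‖ₑ ≤ 1 := by
            rw [← ofReal_norm, ← ENNReal.ofReal_one]
            exact ENNReal.ofReal_le_ofReal (b₃ _)
          calc ‖φ z‖ₑ * ‖g₁ (z + a)‖ₑ * ‖g₂ (z + (cis θ + w) + a)‖ₑ *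
                ‖g₃ (z + ρ * (cis θ + w) + a)‖ₑ
              ≤ ‖φ z‖ₑ * ‖g₁ (z + a)‖ₑ * ‖g₂ (z + (cis θ + w) + a)‖ₑ * 1 := by gcongr
            _ = ‖φ z‖ₑ * (‖g₁ (z + a)‖ₑ * ‖g₂ (z + (cis θ + w) + a)‖ₑ) := by ring
            _ ≤ _ := by
              gcongr
              exact ss_mul_le _ _
      _ = ‖φ z‖ₑ * ((∫⁻ z, ‖g₁ z‖ₑ ^ 2) + ∫⁻ z, ‖g₂ z‖ₑ ^ 2) := by
          rw [lintegral_const_mul _ (Continuous.measurable (by fun_prop)),
            lintegral_add_left (Continuous.measurable (by fun_prop))]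
          congr 2
          · exact lintegral_add_left_eq_self (fun a => ‖g₁ a‖ₑ ^ 2) z
          · exact lintegral_add_left_eq_self (fun a => ‖g₂ a‖ₑ ^ 2) (z + (cis θ + w))
  rw [lintegral_lintegral_swap]
  · calc ∫⁻ θ in Ioc 0 (2 * π), ∫⁻ a, ∫⁻ z, ‖(φ z : ℂ) * g₁ (z + a) *
          g₂ (z + (cis θ + w) + a) * g₃ (z + ρ * (cis θ + w) + a)‖ₑ
        ≤ ∫⁻ θ in Ioc 0 (2 * π), ((∫⁻ z, ‖φ z‖ₑ) *
          ((∫⁻ z, ‖g₁ z‖ₑ ^ 2) + ∫⁻ z, ‖g₂ z‖ₑ ^ 2)) := by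
          apply lintegral_mono
          intro θ
          simp only
          rw [lintegral_lintegral_swap]
          · calc ∫⁻ z, ∫⁻ a, ‖(φ z : ℂ) * g₁ (z + a) * g₂ (z + (cis θ + w) + a) *
                  g₃ (z + ρ * (cis θ + w) + a)‖ₑ
                ≤ ∫⁻ z, ‖φ z‖ₑ * ((∫⁻ z, ‖g₁ z‖ₑ ^ 2) + ∫⁻ z, ‖g₂ z‖ₑ ^ 2) :=
                  lintegral_mono fun z => hpt θ z
              _ = _ := by
                rw [lintegral_mul_const _ (by fun_prop)]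
          · apply Measurable.aemeasurable
            apply Continuous.measurable
            simp only [Function.uncurry_def]
            fun_prop
      _ = _ := by
          rw [setLIntegral_const, mul_comm]
          congr 1
          rw [Real.volume_Ioc, sub_zero]
  · apply Measurable.aemeasurable
    have h : Measurable (fun q : (ℂ × ℝ) × ℂ => ‖(φ q.2 : ℂ) * g₁ (q.2 + q.1.1) *
        g₂ (q.2 + (cis q.1.2 + w) + q.1.1) * g₃ (q.2 + ρ * (cis q.1.2 + w) + q.1.1)‖ₑ) := by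
      apply Continuous.measurable
      fun_prop
    exact h.lintegral_prod_right'

end Pool.Agent.H24.Tri
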