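import Pool.Agent.H24.Tri.Defs

set_option autoImplicit false

open MeasureTheory Set Complex Metric Filter Topology
open scoped Real ENNReal NNReal FourierTransform ComplexConjugate

namespace Pool.Agent.H24.Tri

theorem ss_cis_continuous : Continuous cis := by
  unfold cis
  fun_prop

theorem ss_cis_norm (θ : ℝ) : ‖cis θ‖ = 1 := by
  unfold cis
  exact Complex.norm_exp_ofReal_mul_I θ

/-- the localised form with shifted functions, averaged over all shifts -/
theorem ss_fubini (ρ : ℂ) (φ : ℂ → ℝ) (hφ : Continuous φ) (hφi : Integrable φ) (k : ℂ → ℂ)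
    (hk : Continuous k) (hki : Integrable k) (g₁ g₂ g₃ : ℂ → ℂ) (c₁ : Continuous g₁)
    (c₂ : Continuous g₂) (c₃ : Continuous g₃) (i₁ : Integrable g₁) (b₁ : ∀ z, ‖g₁ z‖ ≤ 1)
    (b₂ : ∀ z, ‖g₂ z‖ ≤ 1) (b₃ : ∀ z, ‖g₃ z‖ ≤ 1) :
    ∫ a, (∫ w, k w * ∫ θ in Ioc 0 (2 * π), ∫ z, (φ z : ℂ) * g₁ (z + a) *
      g₂ (z + (cis θ + w) + a) * g₃ (z + ρ * (cis θ + w) + a)) =
      ((∫ z, φ z : ℝ) : ℂ) * LamK ρ k g₁ g₂ g₃ := by
  have hcis := ss_cis_continuous
  set μθ : Measure ℝ := volume.restrict (Ioc 0 (2 * π)) with hμθ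
  have hfin : IsFiniteMeasure μθ := by
    rw [hμθ]
    exact ⟨by simp [ENNReal.mul_lt_top_iff]⟩
  -- the integrand
  set G : ℂ → ℂ → ℝ → ℂ → ℂ := fun a w θ z => (φ z : ℂ) * g₁ (z + a) *
      g₂ (z + (cis θ + w) + a) * g₃ (z + ρ * (cis θ + w) + a) with hG
  have hGn : ∀ a w θ z, ‖G a w θ z‖ ≤ |φ z| * ‖g₁ (z + a)‖ := by
    intro a w θ z
    rw [hG]
    simp only [norm_mul, Complex.norm_real, Real.norm_eq_abs]
    calc |φ z| * ‖g₁ (z + a)‖ * ‖g₂ (z + (cis θ + w) + a)‖ * ‖g₃ (z + ρ * (cis θ + w) + a)‖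
        ≤ |φ z| * ‖g₁ (z + a)‖ * 1 * 1 := by
          gcongr
          · exact b₂ _
          · exact b₃ _
      _ = _ := by ring
  have hGn' : ∀ a w θ z, ‖G a w θ z‖ ≤ |φ z| := by
    intro a w θ z
    refine (hGn a w θ z).trans ?_
    calc |φ z| * ‖g₁ (z + a)‖ ≤ |φ z| * 1 := by
          gcongr
          exact b₁ _
      _ = _ := by ring
  -- slices over (θ, z)
  have hslice : ∀ a w, Integrable (fun p : ℝ × ℂ => G a w p.1 p.2) (μθ.prod volume) := by
    intro a w
    have hd : Integrable (fun p : ℝ × ℂ => (1 : ℝ) * φ p.2) (μθ.prod volume) :=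
      (integrable_const (1 : ℝ)).mul_prod hφi
    refine hd.mono ?_ ?_
    · apply Continuous.aestronglyMeasurable
      rw [hG]
      fun_prop
    · filter_upwards with p
      simpa using hGn' a w p.1 p.2
  have hJ : ∀ a w, ∫ θ in Ioc 0 (2 * π), ∫ z, G a w θ z =
      ∫ p : ℝ × ℂ, G a w p.1 p.2 ∂(μθ.prod volume) := by
    intro a w
    exact (integral_prod _ (hslice a w)).symm
  -- the full integrand
  set H : ℂ × (ℂ × (ℝ × ℂ)) → ℂ := fun p => k p.2.1 * G p.1 p.2.1 p.2.2.1 p.2.2.2 with hH
  have hHc : Continuous H := by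
    rw [hH, hG]
    fun_prop
  have hq : Integrable (fun q : ℂ × (ℝ × ℂ) => k q.1 * ((1 : ℝ) * φ q.2.2 : ℝ))
      (volume.prod (μθ.prod volume)) := by
    have hd : Integrable (fun p : ℝ × ℂ => (((1 : ℝ) * φ p.2 : ℝ) : ℂ)) (μθ.prod volume) :=
      ((integrable_const (1 : ℝ)).mul_prod hφi).ofReal
    exact hki.mul_prod hd
  have hHi : Integrable H (volume.prod (volume.prod (μθ.prod volume))) := by
    rw [integrable_prod_iff' hHc.aestronglyMeasurable]
    constructor
    · filter_upwards with q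
      have h1 : Integrable (fun a : ℂ => g₁ (q.2.2 + a)) := i₁.comp_add_left q.2.2
      refine (h1.norm.const_mul (‖k q.1‖ * |φ q.2.2|)).mono ?_ ?_
      · apply Continuous.aestronglyMeasurable
        exact hHc.comp (by fun_prop)
      · filter_upwards with a
        simp only [hH, norm_mul, Real.norm_eq_abs, abs_abs, abs_norm]
        calc ‖k q.1‖ * ‖G a q.1 q.2.1 q.2.2‖ ≤ ‖k q.1‖ * (|φ q.2.2| * ‖g₁ (q.2.2 + a)‖) := by
              gcongr
              exact hGn _ _ _ _
          _ = _ := by ring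
    · have h1 : ∀ z : ℂ, Integrable (fun a : ℂ => ‖g₁ (z + a)‖) := fun z =>
        (i₁.comp_add_left z).norm
      have h2 : ∀ z : ℂ, ∫ a : ℂ, ‖g₁ (z + a)‖ = ∫ a, ‖g₁ a‖ := fun z =>
        integral_add_left_eq_self (fun a => ‖g₁ a‖) z
      refine (hq.norm.const_mul (∫ a, ‖g₁ a‖)).mono ?_ ?_
      · have := (hHc.norm.aestronglyMeasurable
          (μ := (volume : Measure ℂ).prod (volume.prod (μθ.prod volume)))).prod_swap.integral_prod_right'
        simpa using this
      · filter_upwards with q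
        rw [Real.norm_of_nonneg (integral_nonneg fun _ => norm_nonneg _)]
        refine le_trans ?_ (le_abs_self _)
        calc ∫ a, ‖H (a, q)‖ ≤ ∫ a, ‖k q.1‖ * |φ q.2.2| * ‖g₁ (q.2.2 + a)‖ := by
              apply integral_mono_of_nonneg
              · filter_upwards with a using norm_nonneg _
              · exact (h1 _).const_mul _
              · filter_upwards with a
                simp only [hH, norm_mul]
                calc ‖k q.1‖ * ‖G a q.1 q.2.1 q.2.2‖
                    ≤ ‖k q.1‖ * (|φ q.2.2| * ‖g₁ (q.2.2 + a)‖) := by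
                      gcongr
                      exact hGn _ _ _ _
                  _ = _ := by ring
          _ = _ := by
              rw [integral_const_mul, h2]
              simp only [norm_mul, Complex.norm_real, Real.norm_eq_abs, one_mul]
              ring
  -- first order of integration
  have hL : ∀ a, (∫ w, k w * ∫ θ in Ioc 0 (2 * π), ∫ z, G a w θ z) =
      ∫ q : ℂ × (ℝ × ℂ), H (a, q) ∂(volume.prod (μθ.prod volume)) := by
    intro a
    rw [integral_prod]
    · congr 1
      funext w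
      rw [hJ, ← integral_const_mul]
    · refine hq.norm.mono ?_ ?_
      · exact (hHc.comp (by fun_prop)).aestronglyMeasurable
      · filter_upwards with q
        simp only [hH, norm_mul, Complex.norm_real, Real.norm_eq_abs, one_mul, abs_mul, abs_norm,
          abs_abs]
        gcongr
        exact hGn' _ _ _ _
  have hR : ∀ q : ℂ × (ℝ × ℂ), ∫ a, H (a, q) =
      k q.1 * ((φ q.2.2 : ℂ) * tri ρ g₁ g₂ g₃ (cis q.2.1 + q.1)) := by
    intro q
    simp only [hH, hG]
    rw [integral_const_mul]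
    congr 1
    unfold tri
    rw [← integral_const_mul,
      ← integral_add_left_eq_self (fun x => (φ q.2.2 : ℂ) * (g₁ x * g₂ (x + (cis q.2.1 + q.1)) *
        g₃ (x + ρ * (cis q.2.1 + q.1)))) q.2.2]
    congr 1
    funext a
    have e1 : q.2.2 + (cis q.2.1 + q.1) + a = q.2.2 + a + (cis q.2.1 + q.1) := by ring
    have e2 : q.2.2 + ρ * (cis q.2.1 + q.1) + a = q.2.2 + a + ρ * (cis q.2.1 + q.1) := by ring
    rw [e1, e2]
    ring
  calc ∫ a, (∫ w, k w * ∫ θ in Ioc 0 (2 * π), ∫ z, G a w θ z)
      = ∫ a, ∫ q : ℂ × (ℝ × ℂ), H (a, q) ∂(volume.prod (μθ.prod volume)) := by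
        congr 1
        funext a
        exact hL a
    _ = ∫ q : ℂ × (ℝ × ℂ), (∫ a, H (a, q)) ∂(volume.prod (μθ.prod volume)) :=
        integral_integral_swap hHi
    _ = ∫ q : ℂ × (ℝ × ℂ), k q.1 * ((φ q.2.2 : ℂ) * tri ρ g₁ g₂ g₃ (cis q.2.1 + q.1))
          ∂(volume.prod (μθ.prod volume)) := by
        congr 1
        funext q
        exact hR q
    _ = ∫ w, ∫ p : ℝ × ℂ, k w * ((φ p.2 : ℂ) * tri ρ g₁ g₂ g₃ (cis p.1 + w))
          ∂(μθ.prod volume) := by
        have h := hHi.integral_prod_right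
        simp only [hR] at h
        rw [integral_prod _ h]
    _ = ∫ w, k w * (((∫ z, φ z : ℝ) : ℂ) * Lam ρ g₁ g₂ g₃ w) := by
        have h := hHi.integral_prod_right
        simp only [hR] at h
        have h' := h.prod_right_ae
        apply integral_congr_ae
        filter_upwards [h'] with w hw
        rw [integral_prod _ hw]
        simp only [integral_const_mul]
        congr 1
        unfold Lam
        rw [← integral_const_mul, hμθ]
        congr 1
        funext θ
        rw [integral_mul_const]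
        congr 1
        exact integral_ofReal
    _ = _ := by
        unfold LamK
        rw [← integral_const_mul]
        congr 1
        funext w
        ring

end Pool.Agent.H24.Tri
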