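import Pool.Agent.H65.Tri.SSEst
import Pool.Agent.H24.Tri.ToolA
import Pool.Agent.H24.Tri.ToolB

set_option autoImplicit false

open MeasureTheory Set Complex Metric Filter Topology
open scoped Real ENNReal NNReal FourierTransform ComplexConjugate

namespace Pool.Agent.H24.Tri

theorem ss_scale (R : ℝ) (hR : 0 < R) (F : ℂ → ℝ≥0∞) :
    ∫⁻ w, ENNReal.ofReal (R ^ 2) * F ((R : ℂ) * w) = ∫⁻ y, F y := by
  have hmap := Measure.map_addHaar_smul (volume : Measure ℂ) hR.ne'
  have hemb : MeasurableEmbedding (fun w : ℂ => R • w) :=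
    (Homeomorph.smulOfNeZero R hR.ne').measurableEmbedding
  have h1 : ∫⁻ w, F ((R : ℂ) * w) = ∫⁻ y, F y ∂(Measure.map (R • ·) (volume : Measure ℂ)) := by
    rw [hemb.lintegral_map]
    simp only [Complex.real_smul]
  have hpos : (0 : ℝ) < R ^ 2 := by positivity
  rw [lintegral_const_mul' _ _ ENNReal.ofReal_ne_top, h1, hmap, lintegral_smul_measure,
    Complex.finrank_real_complex, abs_of_pos (inv_pos.mpr hpos), smul_eq_mul, ← mul_assoc,
    ← ENNReal.ofReal_mul hpos.le, mul_inv_cancel₀ hpos.ne', ENNReal.ofReal_one, one_mul]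

theorem ss_kR_enorm (R : ℝ) (hR : 0 < R) (w : ℂ) :
    ‖kR R w‖ₑ = ENNReal.ofReal (R ^ 2) * ‖𝓕⁻ kapC ((R : ℂ) * w)‖ₑ := by
  unfold kR
  rw [enorm_mul]
  congr 1
  rw [← ofReal_norm, norm_pow, Complex.norm_real, Real.norm_of_nonneg hR.le]

theorem ss_kR_lintegral (R : ℝ) (hR : 0 < R) : ∫⁻ w, ‖kR R w‖ₑ = ∫⁻ y, ‖𝓕⁻ kapC y‖ₑ := by
  simp only [ss_kR_enorm R hR]
  exact ss_scale R hR (fun y => ‖𝓕⁻ kapC y‖ₑ)

theorem ss_kR_continuous (R : ℝ) : Continuous (kR R) := by
  unfold kR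
  have := nice_continuous kapC nice_kap
  fun_prop

theorem ss_kR_integrable (R : ℝ) (hR : 0 < R) : Integrable (kR R) := by
  refine ⟨(ss_kR_continuous R).aestronglyMeasurable, ?_⟩
  rw [HasFiniteIntegral, ss_kR_lintegral R hR]
  exact (nice_integrable kapC nice_kap).2.2

theorem ss_kR_far (ε : ℝ≥0∞) (hε : ε ≠ 0) : ∃ R₁ : ℝ, ∀ R : ℝ, R₁ ≤ R → 0 < R →
    ∫⁻ w in {w : ℂ | 1 < ‖w‖}, ‖kR R w‖ₑ ≤ ε := by
  have hc := nice_continuous kapC nice_kap
  have hi := (nice_integrable kapC nice_kap).2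
  have hset : ∀ R : ℝ, MeasurableSet {y : ℂ | R < ‖y‖} := fun R =>
    measurableSet_lt (by fun_prop) (by fun_prop)
  have hlim : Tendsto (fun R : ℝ => ∫⁻ y, {y : ℂ | R < ‖y‖}.indicator (fun y => ‖𝓕⁻ kapC y‖ₑ) y)
      atTop (𝓝 (∫⁻ _ : ℂ, 0)) := by
    apply tendsto_lintegral_filter_of_dominated_convergence (fun y => ‖𝓕⁻ kapC y‖ₑ)
    · filter_upwards with R
      exact Measurable.indicator (Continuous.measurable (by fun_prop)) (hset R)
    · filter_upwards with R
      filter_upwards with y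
      exact indicator_le_self' (fun _ _ => zero_le) y
    · exact hi.2.ne
    · filter_upwards with y
      apply tendsto_const_nhds.congr'
      filter_upwards [eventually_ge_atTop ‖y‖] with R hR
      rw [indicator_of_notMem]
      simpa using hR
  rw [lintegral_zero] at hlim
  have hev := hlim.eventually (ge_mem_nhds (pos_iff_ne_zero.mpr hε))
  obtain ⟨R₁, hR₁⟩ := eventually_atTop.mp hev
  refine ⟨R₁, fun R hR hR0 => ?_⟩
  refine le_trans (le_of_eq ?_) (hR₁ R hR)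
  rw [← ss_scale R hR0, ← lintegral_indicator (hset 1)]
  congr 1
  funext w
  have hn : ‖(R : ℂ) * w‖ = R * ‖w‖ := by
    rw [norm_mul, Complex.norm_real, Real.norm_of_nonneg hR0.le]
  by_cases hw : 1 < ‖w‖
  · rw [indicator_of_mem (by simpa using hw), indicator_of_mem, ss_kR_enorm R hR0]
    show R < ‖(R : ℂ) * w‖
    rw [hn]
    nlinarith
  · rw [indicator_of_notMem (by simpa using hw), indicator_of_notMem, mul_zero]
    show ¬ R < ‖(R : ℂ) * w‖
    rw [hn]
    push Not at hw ⊢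
    nlinarith

end Pool.Agent.H24.Tri
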